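import Pool.Agent.H60.CM.Basic

/-!
# Row CS2: the rotation function vanishes if the surface is invariant under a rotation
-/

set_option autoImplicit false

open Set Function MeasureTheory Filter Topology
open scoped Manifold ContDiff Matrix
open Pool.Agent.H60.CM

namespace Pool.Agent.H27.CM.CS

theorem rot_zero (y : V3) : rot 0 y = y := by
  funext i
  fin_cases i <;> simp [rot]

theorem mir_mir (y : V3) : mir (mir y) = y := by
  funext i
  fin_cases i <;> simp [mir]

theorem sym_int (D : Dat) (σ : Diffeomorph (𝓡∂ 2) (𝓡∂ 2) D.S D.S ∞) {p : D.S} (hp : p ∈ D.int) :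
    σ p ∈ D.int := by
  by_contra h
  have h2 : σ p ∈ (𝓡∂ 2).boundary D.S := D.not_int.1 h
  have h3 : p ∈ σ ⁻¹' ((𝓡∂ 2).boundary D.S) := h2
  rw [σ.preimage_boundary (n := ∞) (by simp)] at h3
  exact D.not_int.2 h3 hp

theorem sym_bd (D : Dat) (σ : Diffeomorph (𝓡∂ 2) (𝓡∂ 2) D.S D.S ∞) {p : D.S} (hp : p ∈ D.bd) :
    σ p ∈ D.bd := by
  have h3 : p ∈ (𝓡∂ 2).boundary D.S := hp
  rw [← σ.preimage_boundary (n := ∞) (by simp)] at h3
  exact h3

theorem u_eq (D : Dat) (p : D.S) : D.u p = D.x p 0 * D.N p 1 - D.x p 1 * D.N p 0 := by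
  unfold Dat.u kf e3
  rw [Matrix.vec3_dotProduct]
  simp [cross_apply]
  ring

theorem oddk_eq (Y : Sy) (c : ℝ) (p : Y.S) : oddk Y c 0 0 p = c * Y.toDat.u p := by
  rw [u_eq]
  unfold oddk kf
  rw [Matrix.vec3_dotProduct]
  simp [cross_apply]
  ring

theorem pf_CS2 (h1 : T_LPP) (h2 : T_SGN) (h3 : T_BNZ) (h4 : T_DNI) (h5 : T_ODD) (h6 : T_BPC) :
    T_CS2 := by
  intro Y hst
  set D : Dat := Y.toDat with hD
  intro ρ α hα hρ
  have hτN : ∀ p, D.N (Y.τ p) = mir (D.N p) := by
    intro p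
    have := h2 D Y.τ 0 (fun q => by rw [rot_zero]; exact Y.mirr q) p
    rw [rot_zero] at this
    exact this
  have hρN : ∀ p, D.N (ρ p) = rot α (D.N p) := by
    intro p
    have := h2 D (Y.τ.trans ρ) α (fun q => by
      have e1 : D.x (ρ (Y.τ q)) = rot α (D.x (Y.τ q)) := hρ _
      have e2 : D.x (Y.τ q) = mir (D.x q) := Y.mirr q
      rw [← e2]
      exact e1) (Y.τ p)
    have e3 : (Y.τ.trans ρ) (Y.τ p) = ρ (Y.τ (Y.τ p)) := rfl
    rw [e3, Y.inv, hτN, mir_mir] at this
    exact this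
  have hsc := Real.sin_sq_add_cos_sq α
  have huρ : ∀ p, D.u (ρ p) = D.u p := by
    intro p
    have e1 : D.x (ρ p) = rot α (D.x p) := hρ p
    rw [u_eq, u_eq, hρN, e1]
    simp only [rot, Matrix.cons_val_zero, Matrix.cons_val_one]
    linear_combination (D.x p 0 * D.N p 1 - D.x p 1 * D.N p 0) * hsc
  have huτ : ∀ p, D.u (Y.τ p) = -D.u p := by
    intro p
    have h := h5 Y 1 0 0 p
    rw [oddk_eq, oddk_eq, one_mul, one_mul] at h
    exact h
  have hr := D.cmc.r_pos
  -- the contradiction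
  have hcon : ∀ ε : ℝ, (∀ p ∈ Y.A ∩ D.int, 0 < ε * D.u p) → False := by
    intro ε hε
    have hα2 : α = α / 2 + α / 2 := by ring
    have hc : Real.cos α = 1 - 2 * Real.sin (α / 2) ^ 2 := by
      conv_lhs => rw [hα2]
      rw [Real.cos_add]
      have := Real.sin_sq_add_cos_sq (α / 2)
      linear_combination this
    have hs : Real.sin α = 2 * (Real.sin (α / 2) * Real.cos (α / 2)) := by
      conv_lhs => rw [hα2]
      rw [Real.sin_add]
      ring
    have hsb : Real.sin (α / 2) ≠ 0 := by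
      intro h
      apply hα
      rw [hc, h]
      norm_num
    obtain ⟨s, hs1, hs2⟩ : ∃ s : ℝ, s ^ 2 = 1 ∧ 0 < s * Real.sin (α / 2) := by
      rcases lt_or_gt_of_ne hsb with h | h
      · exact ⟨-1, by norm_num, by linarith⟩
      · exact ⟨1, by norm_num, by linarith⟩
    have hsc2 := Real.sin_sq_add_cos_sq (α / 2)
    obtain ⟨p, hp, hxp⟩ : ∃ p ∈ D.bd,
        D.x p = ![-(s * D.r * Real.cos (α / 2)), s * D.r * Real.sin (α / 2), 0] := by
      have hmem : (![-(s * D.r * Real.cos (α / 2)), s * D.r * Real.sin (α / 2), 0] : V3) ∈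
          circ D.r := by
        constructor
        · simp
        · rw [Matrix.vec3_dotProduct]
          simp
          linear_combination (s ^ 2 * D.r ^ 2) * hsc2 + D.r ^ 2 * hs1
      obtain ⟨p, hp, hpx⟩ := D.cmc.circle.surjOn hmem
      exact ⟨p, hp, hpx⟩
    have x0 : D.x p 0 = -(s * D.r * Real.cos (α / 2)) := by rw [hxp]; rfl
    have x1 : D.x p 1 = s * D.r * Real.sin (α / 2) := by rw [hxp]; rfl
    have hpos : 0 < D.r * (s * Real.sin (α / 2)) := mul_pos hr hs2
    have hpA : p ∈ Y.A := Y.pos p hp (by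
      change 0 < D.x p 1
      rw [x1]
      linarith)
    have hq1 : D.x (ρ p) 1 = -(D.r * (s * Real.sin (α / 2))) := by
      have e1 : D.x (ρ p) = rot α (D.x p) := hρ p
      rw [e1]
      simp only [rot, Matrix.cons_val_one]
      rw [x0, x1, hs, hc]
      simp only [Matrix.cons_val_zero]
      linear_combination (-2 * s * D.r * Real.sin (α / 2)) * hsc2
    have hqA : Y.τ (ρ p) ∈ Y.A := Y.pos _ (sym_bd D Y.τ (sym_bd D ρ hp)) (by
      change 0 < D.x (Y.τ (ρ p)) 1
      have e2 : D.x (Y.τ (ρ p)) = mir (D.x (ρ p)) := Y.mirr _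
      rw [e2]
      simp only [mir, Matrix.cons_val_one, Matrix.cons_val_zero]
      rw [hq1]
      linarith)
    have hW : IsOpen (Y.A ∩ (fun q => Y.τ (ρ q)) ⁻¹' Y.A) :=
      Y.half.isOpen.inter (Y.half.isOpen.preimage (Y.τ.continuous.comp ρ.continuous))
    obtain ⟨p', hp', hpi⟩ := (h4 D).inter_open_nonempty _ hW ⟨p, hpA, hqA⟩
    have k1 := hε p' ⟨hp'.1, hpi⟩
    have k2 := hε (Y.τ (ρ p')) ⟨hp'.2, sym_int D Y.τ (sym_int D ρ hpi)⟩
    rw [huτ, huρ] at k2
    linarith
  have hb : ∀ c : ℝ, ∀ p ∈ Y.A ∩ D.bd, oddk Y c 0 0 p ≤ 0 := by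
    intro c p hp
    have e1 : D.u p = 0 := (h3 D p hp.2).1
    have e2 := oddk_eq Y c p
    rw [e2]
    have : c * D.u p = 0 := by rw [e1, mul_zero]
    exact le_of_eq this
  have hle : ∀ p ∈ Y.A ∩ D.int, D.u p = 0 := by
    rcases h1 Y hst 1 0 0 (hb 1) with h | h
    · exact (hcon 1 (fun p hp => by
        have := h p hp
        rw [oddk_eq] at this
        exact this)).elim
    · rcases h1 Y hst (-1) 0 0 (hb (-1)) with h' | h'
      · exact (hcon (-1) (fun p hp => by
          have := h' p hp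
          rw [oddk_eq] at this
          exact this)).elim
      · intro p hp
        have k1 := h p hp
        have k2 := h' p hp
        rw [oddk_eq] at k1 k2
        have k1' : 1 * D.u p ≤ 0 := k1
        have k2' : (-1) * D.u p ≤ 0 := k2
        linarith
  have hcont : Continuous D.u := Dat.Sm.cont D D.smu
  have hA : ∀ p ∈ Y.A, D.u p = 0 := by
    intro p hp
    have hcl : IsClosed {q | D.u q = 0} := isClosed_eq hcont continuous_const
    have hsub : Y.A ∩ D.int ⊆ {q | D.u q = 0} := fun q hq => hle q hq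
    have hmem : p ∈ closure (Y.A ∩ D.int) :=
      (h4 D).open_subset_closure_inter Y.half.isOpen hp
    exact hcl.closure_subset_iff.2 hsub hmem
  intro p
  change D.u p = 0
  by_cases hf : Y.τ p = p
  · have h := huτ p
    rw [hf] at h
    linarith
  · rcases (Y.half.cover p).1 hf with h | h
    · exact hA p h
    · have k := hA _ h
      rw [huτ] at k
      linarith

end Pool.Agent.H27.CM.CS
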