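import Pool.Agent.H60.CM.Basic

/-!
# Row FIC: the first integral is constant
-/

set_option autoImplicit false

open Set Function MeasureTheory Filter Topology
open scoped Manifold ContDiff Matrix
open Pool.Agent.H60.CM

namespace Pool.Agent.H27.CM

theorem dd_fi (D : Dat) (p : D.S) (i : Fin 2) :
    dd D.fi p i = dd D.x p i 0 * D.N p 0 + D.x p 0 * dd D.N p i 0 +
      dd D.x p i 1 * D.N p 1 + D.x p 1 * dd D.N p i 1 +
      2 * D.H * (D.x p 0 * dd D.x p i 0 + D.x p 1 * dd D.x p i 1) := by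
  have hx : MD D.x p := Dat.Sm.md D D.smx p
  have hN : MD D.N p := Dat.Sm.md D D.smN p
  have x0 := hx.coord 0
  have x1 := hx.coord 1
  have n0 := hN.coord 0
  have n1 := hN.coord 1
  have h : D.fi = fun q => (D.x q 0 * D.N q 0 + D.x q 1 * D.N q 1) +
      D.H * (D.x q 0 * D.x q 0 + D.x q 1 * D.x q 1) := by
    funext q
    unfold Dat.fi
    ring
  rw [h, dd_add ((x0.mul n0).add (x1.mul n1)) ((md_const _ p).mul ((x0.mul x0).add (x1.mul x1))),
    dd_add (x0.mul n0) (x1.mul n1), dd_const_mul ((x0.mul x0).add (x1.mul x1)),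
    dd_add (x0.mul x0) (x1.mul x1), dd_mul x0 n0, dd_mul x1 n1, dd_mul x0 x0, dd_mul x1 x1,
    dd_coord hx, dd_coord hx, dd_coord hN, dd_coord hN]
  ring

theorem rot_zero (y : V3) : rot 0 y = y := by
  funext i
  fin_cases i <;> simp [rot]

theorem smfi (D : Dat) : D.Sm D.fi := by
  have h : D.fi = fun q => (D.x q 0 * D.N q 0 + D.x q 1 * D.N q 1) +
      D.H * (D.x q 0 * D.x q 0 + D.x q 1 * D.x q 1) := by
    funext q
    unfold Dat.fi
    ring
  rw [h]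
  have x0 := Dat.Sm.coord D D.smx 0
  have x1 := Dat.Sm.coord D D.smx 1
  have n0 := Dat.Sm.coord D D.smN 0
  have n1 := Dat.Sm.coord D D.smN 1
  exact Dat.Sm.add D (Dat.Sm.add D (Dat.Sm.mul D x0 n0) (Dat.Sm.mul D x1 n1))
    (Dat.Sm.const_mul D (Dat.Sm.add D (Dat.Sm.mul D x0 x0) (Dat.Sm.mul D x1 x1)) D.H)

/-- the symmetry maps the interior to itself -/
theorem sym_int (D : Dat) (σ : Diffeomorph (𝓡∂ 2) (𝓡∂ 2) D.S D.S ∞) {p : D.S} (hp : p ∈ D.int) :
    σ p ∈ D.int := by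
  by_contra h
  have h2 : σ p ∈ (𝓡∂ 2).boundary D.S := D.not_int.1 h
  have h3 : p ∈ σ ⁻¹' ((𝓡∂ 2).boundary D.S) := h2
  rw [σ.preimage_boundary (n := ∞) (by simp)] at h3
  exact D.not_int.2 h3 hp

theorem pf_FIC (h1 : T_FDZ) (h2 : T_SYM) (h3 : T_LCS) (h4 : T_FIX) (h5 : T_SGN) : T_FIC := by
  intro Y hu
  set D : Dat := Y.toDat with hD
  have hx : ∀ p, MD D.x p := fun p => Dat.Sm.md D D.smx p
  have hN : ∀ p, MD D.N p := fun p => Dat.Sm.md D D.smN p
  have hd : ∀ p ∈ D.int, ∀ i, dd D.fi p i = 0 := by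
    intro p hp
    have hF := h2 D p hp
    have a0 : (e3 ⨯₃ D.x p) ⬝ᵥ D.N p = 0 := by
      have := hu p
      simp only [Dat.u, kf, zero_add] at this
      exact this
    have ai : ∀ i, (e3 ⨯₃ dd D.x p i) ⬝ᵥ D.N p + (e3 ⨯₃ D.x p) ⬝ᵥ dd D.N p i = 0 := by
      intro i
      have h := dd_kf (hx p) (hN p) 0 e3 i
      have h0 : kf D.x D.N 0 e3 = fun _ => 0 := by
        funext q
        exact hu q
      rw [h0, dd_const, zero_add] at h
      exact h.symm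
    obtain ⟨r0, r1⟩ := h1 _ _ _ _ _ _ hF (D.x p) a0 (ai 0) (ai 1)
    intro i
    rw [dd_fi]
    fin_cases i
    · exact r0
    · exact r1
  have hτN : ∀ p, D.N (Y.τ p) = mir (D.N p) := by
    intro p
    have := h5 D Y.τ 0 (fun q => by rw [rot_zero]; exact Y.mirr q) p
    rw [rot_zero] at this
    exact this
  have hfτ : ∀ p, D.fi (Y.τ p) = D.fi p := by
    intro p
    have e1 : D.x (Y.τ p) = mir (D.x p) := Y.mirr p
    unfold Dat.fi
    rw [hτN, e1]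
    simp [mir]
  have hden := h4 D Y.τ Y.A Y.inv Y.mirr Y.half
  have hne : Nonempty D.S := inferInstance
  obtain ⟨q, hq⟩ := hden.nonempty
  have hAint : ∀ a ∈ Y.A ∩ D.int, ∀ b ∈ Y.A ∩ D.int, D.fi a = D.fi b :=
    h3 D D.fi (Y.A ∩ D.int) (smfi D) (Y.half.isOpen.inter D.int_open) inter_subset_right Y.conn
      (fun p hp i => hd p hp.2 i)
  have hrep : ∀ p, p ∈ D.int → (p ∈ Y.A ∨ Y.τ p ∈ Y.A) →
      ∃ p' ∈ Y.A ∩ D.int, D.fi p = D.fi p' := by
    intro p hp h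
    rcases h with h | h
    · exact ⟨p, ⟨h, hp⟩, rfl⟩
    · exact ⟨Y.τ p, ⟨h, sym_int D Y.τ hp⟩, (hfτ p).symm⟩
  obtain ⟨q', hq', hqq⟩ := hrep q hq.1 hq.2
  refine ⟨D.fi q, ?_⟩
  have hcl : IsClosed {p | D.fi p = D.fi q} :=
    isClosed_eq (Dat.Sm.cont D (smfi D)) continuous_const
  have hsub : {p | p ∈ D.int ∧ (p ∈ Y.A ∨ Y.τ p ∈ Y.A)} ⊆ {p | D.fi p = D.fi q} := by
    intro p hp
    obtain ⟨p', hp', hpp⟩ := hrep p hp.1 hp.2
    have : D.fi p = D.fi q := by rw [hpp, hqq]; exact hAint p' hp' q' hq'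
    exact this
  intro p
  have := hcl.closure_subset_iff.2 hsub (hden p)
  exact this

end Pool.Agent.H27.CM
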