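import Pool.Agent.H60.CM.Basic

/-!
# Row SGN: the normal is compatible with reflections
-/

set_option autoImplicit false

open Set Function MeasureTheory Filter Topology
open scoped Manifold ContDiff Matrix
open Pool.Agent.H60.CM

namespace Pool.Agent.H27.CM

/-- the reflection `rot α ∘ mir` as a linear map -/
noncomputable def refl (α : ℝ) : V3 →L[ℝ] V3 :=
  LinearMap.toContinuousLinearMap
    { toFun := fun y => rot α (mir y)
      map_add' := by
        intro v w
        funext i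
        fin_cases i <;> simp [rot, mir] <;> ring
      map_smul' := by
        intro c v
        funext i
        fin_cases i <;> simp [rot, mir] <;> ring }

theorem refl_apply (α : ℝ) (y : V3) : refl α y = rot α (mir y) := rfl

theorem refl0 (α : ℝ) (y : V3) : rot α (mir y) 0 = Real.cos α * y 0 + Real.sin α * y 1 := by
  simp [rot, mir]

theorem refl1 (α : ℝ) (y : V3) : rot α (mir y) 1 = Real.sin α * y 0 - Real.cos α * y 1 := by
  simp [rot, mir]
  ring

theorem refl2 (α : ℝ) (y : V3) : rot α (mir y) 2 = y 2 := by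
  simp [rot, mir]

theorem refl_dot (α : ℝ) (v w : V3) : rot α (mir v) ⬝ᵥ w = v ⬝ᵥ rot α (mir w) := by
  rw [Matrix.vec3_dotProduct, Matrix.vec3_dotProduct, refl0, refl1, refl2, refl0, refl1, refl2]
  ring

theorem refl_refl (α : ℝ) (v : V3) : rot α (mir (rot α (mir v))) = v := by
  have h := Real.sin_sq_add_cos_sq α
  funext i
  fin_cases i
  · change rot α (mir (rot α (mir v))) 0 = v 0
    rw [refl0, refl0, refl1]
    linear_combination (v 0) * h
  · change rot α (mir (rot α (mir v))) 1 = v 1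
    rw [refl1, refl0, refl1]
    linear_combination (v 1) * h
  · change rot α (mir (rot α (mir v))) 2 = v 2
    rw [refl2, refl2]

/-- two unit vectors orthogonal to the same plane -/
theorem unit_orth (m n e0 e1 : V3) (he : e0 ⨯₃ e1 ≠ 0) (hm : m ⬝ᵥ m = 1) (hn : n ⬝ᵥ n = 1)
    (m0 : m ⬝ᵥ e0 = 0) (m1 : m ⬝ᵥ e1 = 0) (n0 : n ⬝ᵥ e0 = 0) (n1 : n ⬝ᵥ e1 = 0) :
    (m ⬝ᵥ n) ^ 2 = 1 ∧ m = (m ⬝ᵥ n) • n := by
  set w := e0 ⨯₃ e1 with hw
  have key : ∀ v : V3, v ⬝ᵥ e0 = 0 → v ⬝ᵥ e1 = 0 → (w ⬝ᵥ w) • v = (w ⬝ᵥ v) • w := by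
    intro v h0 h1
    have h2 : v ⨯₃ w = 0 := by
      funext i
      rw [Matrix.vec3_dotProduct] at h0 h1
      fin_cases i <;> simp [hw, cross_apply]
      · linear_combination e0 0 * h1 - e1 0 * h0
      · linear_combination e0 1 * h1 - e1 1 * h0
      · linear_combination e0 2 * h1 - e1 2 * h0
    have c0 := congrFun h2 0
    have c1 := congrFun h2 1
    have c2 := congrFun h2 2
    simp only [cross_apply, Matrix.cons_val_zero, Matrix.cons_val_one, Matrix.cons_val,
      Pi.zero_apply] at c0 c1 c2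
    funext i
    simp only [Pi.smul_apply, smul_eq_mul]
    rw [Matrix.vec3_dotProduct, Matrix.vec3_dotProduct]
    fin_cases i
    · change (w 0 * w 0 + w 1 * w 1 + w 2 * w 2) * v 0 =
        (w 0 * v 0 + w 1 * v 1 + w 2 * v 2) * w 0
      linear_combination w 1 * c2 - w 2 * c1
    · change (w 0 * w 0 + w 1 * w 1 + w 2 * w 2) * v 1 =
        (w 0 * v 0 + w 1 * v 1 + w 2 * v 2) * w 1
      linear_combination w 2 * c0 - w 0 * c2
    · change (w 0 * w 0 + w 1 * w 1 + w 2 * w 2) * v 2 =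
        (w 0 * v 0 + w 1 * v 1 + w 2 * v 2) * w 2
      linear_combination w 0 * c1 - w 1 * c0
  have hpos : w ⬝ᵥ w ≠ 0 := fun h => he (dotProduct_self_eq_zero.1 h)
  have k1 := key m m0 m1
  have k2 := key n n0 n1
  have e1 : (w ⬝ᵥ w) = (w ⬝ᵥ m) ^ 2 := by
    have := congrArg (fun z => z ⬝ᵥ m) k1
    simp only [smul_dotProduct, smul_eq_mul, hm] at this
    linear_combination this
  have e2 : (w ⬝ᵥ w) = (w ⬝ᵥ n) ^ 2 := by
    have := congrArg (fun z => z ⬝ᵥ n) k2
    simp only [smul_dotProduct, smul_eq_mul, hn] at this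
    linear_combination this
  have e3 : (w ⬝ᵥ w) * (m ⬝ᵥ n) = (w ⬝ᵥ m) * (w ⬝ᵥ n) := by
    have := congrArg (fun z => z ⬝ᵥ n) k1
    simp only [smul_dotProduct, smul_eq_mul] at this
    exact this
  constructor
  · have h3 : (w ⬝ᵥ w) ^ 2 * (m ⬝ᵥ n) ^ 2 = (w ⬝ᵥ w) ^ 2 * 1 := by
      calc (w ⬝ᵥ w) ^ 2 * (m ⬝ᵥ n) ^ 2 = ((w ⬝ᵥ w) * (m ⬝ᵥ n)) ^ 2 := by ring
        _ = (w ⬝ᵥ m) ^ 2 * (w ⬝ᵥ n) ^ 2 := by rw [e3]; ring
        _ = (w ⬝ᵥ w) ^ 2 * 1 := by rw [← e1, ← e2]; ring
    exact mul_left_cancel₀ (pow_ne_zero 2 hpos) h3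
  · have h4 : (w ⬝ᵥ w) • ((w ⬝ᵥ w) • m) = (w ⬝ᵥ w) • ((w ⬝ᵥ w) • ((m ⬝ᵥ n) • n)) := by
      have : (w ⬝ᵥ w) • ((w ⬝ᵥ w) • ((m ⬝ᵥ n) • n)) =
          ((w ⬝ᵥ w) * (m ⬝ᵥ n)) • ((w ⬝ᵥ w) • n) := by
        rw [smul_smul, smul_smul, smul_smul]
        congr 1
        ring
      rw [this, k1, k2, e3, smul_smul, smul_smul]
      congr 1
      linear_combination (w ⬝ᵥ m) * e2
    have h5 := smul_right_injective V3 hpos h4
    exact smul_right_injective V3 hpos h5

theorem dd_vec {S : Type} [TopologicalSpace S] [ChartedSpace (EuclideanHalfSpace 2) S]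
    (x : S → V3) (N : S → V3) (p : S) (hN : ∀ i, N p ⬝ᵥ dd x p i = 0) (v : E2) :
    N p ⬝ᵥ (mfderiv (𝓡∂ 2) 𝓘(ℝ, V3) x p v : V3) = 0 := by
  have h : v = v 0 • ee 0 + v 1 • ee 1 := by
    ext i
    fin_cases i <;> simp [ee]
  have h2 : (mfderiv (𝓡∂ 2) 𝓘(ℝ, V3) x p v : V3) = v 0 • dd x p 0 + v 1 • dd x p 1 := by
    have : ∀ L : E2 →L[ℝ] V3, L v = v 0 • L (ee 0) + v 1 • L (ee 1) := by
      intro L
      conv_lhs => rw [h]
      rw [map_add, map_smul, map_smul]
    exact this _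
  rw [h2, dotProduct_add, dotProduct_smul, dotProduct_smul, hN, hN]
  simp

theorem pf_SGN (h1 : T_BNZ) (h2 : T_BPC) : T_SGN := by
  intro D σ α hσ
  have hsm : ∀ p, MDifferentiableAt (𝓡∂ 2) (𝓡∂ 2) σ p := fun p =>
    (σ.contMDiff.mdifferentiable (by simp)) p
  have hx : ∀ p, MD D.x p := fun p => Dat.Sm.md D D.smx p
  -- orthogonality
  have orth : ∀ p i, rot α (mir (D.N (σ p))) ⬝ᵥ dd D.x p i = 0 := by
    intro p i
    rw [refl_dot]
    have e1 : (fun q => refl α (D.x q)) = D.x ∘ σ := by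
      funext q
      rw [refl_apply, comp_apply, hσ]
    have e2 : dd (D.x ∘ σ) p i = rot α (mir (dd D.x p i)) := by
      rw [← e1, dd_comp (Φ := fun y => refl α y) (hx p) (refl α).differentiableAt,
        ContinuousLinearMap.fderiv]
      rfl
    have e3 : dd (D.x ∘ σ) p i =
        (mfderiv (𝓡∂ 2) 𝓘(ℝ, V3) D.x (σ p) (mfderiv (𝓡∂ 2) (𝓡∂ 2) σ p (ee i)) : V3) := by
      unfold dd
      rw [mfderiv_comp p (hx (σ p)) (hsm p)]
      rfl
    rw [← e2, e3]
    exact dd_vec D.x D.N (σ p) (fun j => D.cmc.normal (σ p) j) _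
  have un : ∀ p, rot α (mir (D.N (σ p))) ⬝ᵥ rot α (mir (D.N (σ p))) = 1 := by
    intro p
    rw [← refl_dot, refl_refl, D.cmc.unit]
  set f : D.S → ℝ := fun p => rot α (mir (D.N (σ p))) ⬝ᵥ D.N p with hf
  have hfc : ∀ p, f p ^ 2 = 1 ∧ rot α (mir (D.N (σ p))) = f p • D.N p := fun p =>
    unit_orth _ _ _ _ (D.cmc.imm p) (un p) (D.cmc.unit p) (orth p 0) (orth p 1)
      (D.cmc.normal p 0) (D.cmc.normal p 1)
  have cN : Continuous D.N := Dat.Sm.cont D D.smN
  have cNk : ∀ k, Continuous fun p => D.N p k := fun k => (continuous_apply k).comp cN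
  have hfcont : Continuous f := by
    have : f = fun p => (Real.cos α * D.N (σ p) 0 + Real.sin α * D.N (σ p) 1) * D.N p 0 +
        (Real.sin α * D.N (σ p) 0 - Real.cos α * D.N (σ p) 1) * D.N p 1 +
        D.N (σ p) 2 * D.N p 2 := by
      funext p
      simp only [hf]
      rw [Matrix.vec3_dotProduct, refl0, refl1, refl2]
    rw [this]
    have c2 : ∀ k, Continuous fun p => D.N (σ p) k := fun k => (cNk k).comp σ.continuous
    exact (((((continuous_const.mul (c2 0)).add (continuous_const.mul (c2 1))).mul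
      (cNk 0))).add ((((continuous_const.mul (c2 0)).sub (continuous_const.mul (c2 1))).mul
      (cNk 1)))).add ((c2 2).mul (cNk 2))
  -- the fixed boundary point
  have hr := D.cmc.r_pos
  obtain ⟨p0, hp0, hxp0⟩ : ∃ p ∈ D.bd,
      D.x p = ![D.r * Real.cos (α / 2), D.r * Real.sin (α / 2), 0] := by
    have hmem : (![D.r * Real.cos (α / 2), D.r * Real.sin (α / 2), 0] : V3) ∈ circ D.r := by
      constructor
      · simp
      · rw [Matrix.vec3_dotProduct]
        simp
        have := Real.sin_sq_add_cos_sq (α / 2)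
        linear_combination D.r ^ 2 * this
    obtain ⟨p, hp, hpx⟩ := D.cmc.circle.surjOn hmem
    exact ⟨p, hp, hpx⟩
  have hα : α = α / 2 + α / 2 := by ring
  have hc : Real.cos α = Real.cos (α / 2) ^ 2 - Real.sin (α / 2) ^ 2 := by
    conv_lhs => rw [hα]
    rw [Real.cos_add]
    ring
  have hs : Real.sin α = 2 * (Real.sin (α / 2) * Real.cos (α / 2)) := by
    conv_lhs => rw [hα]
    rw [Real.sin_add]
    ring
  have hsc := Real.sin_sq_add_cos_sq (α / 2)
  have x0 : D.x p0 0 = D.r * Real.cos (α / 2) := by rw [hxp0]; rfl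
  have x1 : D.x p0 1 = D.r * Real.sin (α / 2) := by rw [hxp0]; rfl
  have x2 : D.x p0 2 = 0 := by rw [hxp0]; rfl
  have hfix : rot α (mir (D.x p0)) = D.x p0 := by
    funext i
    fin_cases i
    · change rot α (mir (D.x p0)) 0 = D.x p0 0
      rw [refl0, x0, x1, hc, hs]
      linear_combination (D.r * Real.cos (α / 2)) * hsc
    · change rot α (mir (D.x p0)) 1 = D.x p0 1
      rw [refl1, x0, x1, hc, hs]
      linear_combination (D.r * Real.sin (α / 2)) * hsc
    · change rot α (mir (D.x p0)) 2 = D.x p0 2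
      rw [refl2]
  have hσp0 : σ p0 = p0 := by
    have hb : σ p0 ∈ (𝓡∂ 2).boundary D.S := by
      have := σ.image_boundary (n := ∞) (by simp)
      rw [← this]
      exact ⟨p0, hp0, rfl⟩
    exact D.cmc.circle.injOn hb hp0 (by rw [hσ, hfix])
  have hf0 : f p0 = 1 := by
    obtain ⟨-, b0, b1, -⟩ := h1 D p0 hp0
    have hr2 : D.r ^ 2 ≠ 0 := pow_ne_zero 2 hr.ne'
    have hNfix : rot α (mir (D.N p0)) = D.N p0 := by
      have f0 := congrFun hfix 0
      have f1 := congrFun hfix 1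
      rw [refl0] at f0
      rw [refl1] at f1
      funext i
      fin_cases i
      · change rot α (mir (D.N p0)) 0 = D.N p0 0
        rw [refl0]
        apply mul_right_cancel₀ hr2
        linear_combination (Real.cos α - 1) * b0 + Real.sin α * b1 + (D.N p0 ⬝ᵥ D.x p0) * f0
      · change rot α (mir (D.N p0)) 1 = D.N p0 1
        rw [refl1]
        apply mul_right_cancel₀ hr2
        linear_combination Real.sin α * b0 - (Real.cos α + 1) * b1 + (D.N p0 ⬝ᵥ D.x p0) * f1
      · change rot α (mir (D.N p0)) 2 = D.N p0 2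
        rw [refl2]
    simp only [hf]
    rw [hσp0, hNfix, D.cmc.unit]
  -- the sign is constant
  have hall : ∀ p, f p = 1 := by
    have hcl : IsClosed {p | f p = 1} := isClosed_eq hfcont continuous_const
    have hop : IsOpen {p | f p = 1} := by
      have : {p | f p = 1} = {p | 0 < f p} := by
        ext p
        simp only [mem_ofPred_eq]
        constructor
        · intro h
          rw [h]
          exact one_pos
        · intro h
          have := (hfc p).1
          nlinarith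
      rw [this]
      exact isOpen_lt continuous_const hfcont
    have huniv := IsClopen.eq_univ ⟨hcl, hop⟩ ⟨p0, hf0⟩
    intro p
    have : p ∈ {p | f p = 1} := by rw [huniv]; exact mem_univ p
    exact this
  intro p
  have h3 := (hfc p).2
  rw [hall p, one_smul] at h3
  rw [← h3, refl_refl]

end Pool.Agent.H27.CM
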