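import Pool.Agent.H57.CM.Targets
import Pool.Agent.H57.LH.Ex
import Pool.Agent.H57.LH.ExRows

/-! Board chm, row TPC: types in the structure with levels. -/

set_option autoImplicit false

namespace Pool.Agent.H27.CM

open Pool.Agent.H68.BP Pool.Agent.H58.SF Pool.Agent.H53.NR
open Pool.Agent.H53.GC (strOn sigOf)
open Pool.Agent.H57.AR (tp ty Ty)
open Pool.Agent.H57.LH (tp_strOn tp_iff)
open Pool.Agent.H72.CH Pool.Agent.H57.CM
open Function

theorem pf_TPC : T_TPC := by
  intro τ V J m 𝔹 lv hlv x y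
  unfold cst
  rw [tp_strOn, tp_iff]
  constructor
  · rintro ⟨h1, h2⟩
    refine ⟨⟨h1, fun l z => h2 (Sum.inl l) z⟩, ?_⟩
    intro a b
    rcases lt_or_ge (lv (x a) (x b)) m with h3 | h3
    · have h4 := h2 (Sum.inr ⟨lv (x a) (x b), h3⟩) ![a, b]
      exact (h4.1 rfl).symm
    · have h4 : lv (x a) (x b) = m := le_antisymm (hlv.pl.le _ _) h3
      have h5 : x a = x b := hlv.eq _ _ h4
      have h6 : y a = y b := (h1 a b).1 h5
      rw [h4, h6]
      exact (hlv.pl.self _).symm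
  · rintro ⟨⟨h1, h2⟩, h3⟩
    refine ⟨h1, ?_⟩
    rintro (l | j) z
    · exact h2 l z
    · show lv (x (z 0)) (x (z 1)) = j ↔ lv (y (z 0)) (y (z 1)) = j
      rw [h3]

end Pool.Agent.H27.CM
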